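import Pool.Agent.H70.IntF2

namespace Pool.Agent.Results.MP_57deef_al.NotIntegrable

universe u

theorem result (H : Type u) [Group H] :
    IsEmpty (commutator H ≃* Pool.Agent.H65.Thom.ThompsonF) :=
  ⟨fun e => Pool.Agent.H70.IntF.main e⟩

end Pool.Agent.Results.MP_57deef_al.NotIntegrable
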